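import Pool.Agent.N971.C1.Main
import Pool.Agent.N971.PG.C1F
import Pool.Agent.N973.P15G.Defs

/-!
# P15G: C1 and C1D
-/

set_option autoImplicit false

namespace Pool.Agent.N971.P15G

open Finset
open Pool.Agent.N969.P15 (un psp psp2 c2 Ev chE)
open Pool.Agent.N969.P17G (gen gnE psl psl2 chP chM)
open Pool.Agent.N402.P15 (q2)
open Pool.Agent.N973.P15.C (fo jac_odd chE_odd)
open Pool.Agent.N971.C1
open Pool.Agent.N971.PG (Ae c2_An c2_odd chM_odd chM_even gen_dvd jac_zero_of_dvd pdvd)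
open Pool.Agent.N973.P15G

noncomputable section

/-! ### the characters -/

theorem Ps_odd {A : ℕ} (h : Ps A) (h2 : ¬ 2 ∣ A) : Squarefree A ∧ A % 4 = 1 := by
  rcases h with h | ⟨M, rfl, -, -⟩
  · exact ⟨h.1, h.2.1⟩
  · exact absurd ⟨2 * M, by ring⟩ h2

theorem Ps_even {A : ℕ} (h : Ps A) (h2 : 2 ∣ A) : Ae A ∧
    ∃ M : ℕ, A = 4 * M ∧ Squarefree M ∧ (M % 4 = 2 ∨ M % 4 = 3) := by
  rcases h with h | ⟨M, rfl, h3, h4⟩
  · omega
  · refine ⟨?_, M, rfl, h3, h4⟩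
    unfold Ae
    omega

theorem Ps_pos {A : ℕ} (h : Ps A) : 1 < A := by
  rcases h with h | ⟨M, rfl, h3, h4⟩
  · exact h.2.2
  · omega

theorem Ng_odd {m : ℕ} (h : Ng m) (h2 : ¬ 2 ∣ m) : Squarefree m ∧ m % 4 = 3 := by
  rcases h with h | ⟨M, rfl, -, -⟩
  · exact h
  · exact absurd ⟨2 * M, by ring⟩ h2

theorem Ng_even {m : ℕ} (h : Ng m) (h2 : 2 ∣ m) : Ev m := by
  rcases h with h | h
  · omega
  · exact h

theorem Ng_pos {m : ℕ} (h : Ng m) : 1 < m := by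
  rcases h with h | ⟨M, rfl, h3, h4⟩
  · omega
  · omega

/-- coprime pairs: one of the two is odd -/
theorem par_of {A m : ℕ} (hcop : Nat.Coprime A m) : ¬ 2 ∣ A ∨ ¬ 2 ∣ m := by
  by_contra h
  push Not at h
  have := Nat.dvd_gcd h.1 h.2
  rw [hcop] at this
  omega

theorem gnE_gK {A m : ℕ} (hA : Ps A) (hm : Ng m) (hcop : Nat.Coprime A m) (q : ℤ × ℤ × ℤ) :
    gnE A q = gK (A * m) A q := by
  unfold gnE gK
  by_cases h2 : 2 ∣ A
  · obtain ⟨hA2, -⟩ := Ps_even hA h2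
    have hm2 : ¬ 2 ∣ m := (par_of hcop).resolve_left (fun h => h h2)
    obtain ⟨-, hm4⟩ := Ng_odd hm hm2
    rw [c2_An hA2 hm4, c2_An hA2 hm4]
  · rw [if_neg h2, if_neg h2]

theorem chM_chi {A m : ℕ} (hA : Ps A) (hm : Ng m) (hcop : Nat.Coprime A m) (u : ℤ) :
    chM m u = chi (A * m) m u := by
  unfold chM chi
  by_cases h2 : 2 ∣ m
  · have hm2 : ¬ 2 ∣ A := (par_of hcop).resolve_right (fun h => h h2)
    rw [c2_odd (Ps_odd hA hm2).2 (Ng_even hm h2)]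
  · rw [if_neg h2, if_neg h2]

theorem md_of {A m : ℕ} (hA : Ps A) (hm : Ng m) (hcop : Nat.Coprime A m) : Md (A * m) m := by
  by_cases h2 : 2 ∣ m
  · right
    have hm2 : ¬ 2 ∣ A := (par_of hcop).resolve_right (fun h => h h2)
    obtain ⟨-, hA4⟩ := Ps_odd hA hm2
    obtain ⟨M, rfl, hM, h4⟩ := Ng_even hm h2
    obtain ⟨t, rfl⟩ : ∃ t, A = 4 * t + 1 := ⟨A / 4, by omega⟩
    rcases h4 with h4 | h4
    · refine ⟨M, by omega, hM, ?_⟩
      unfold q2
      have e : (4 * t + 1) * (4 * M) = 16 * (t * M) + 4 * M := by ring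
      rw [e, if_pos (by omega)]
    · obtain ⟨l, rfl⟩ : ∃ l, M = 2 * l := ⟨M / 2, by omega⟩
      refine ⟨l, by omega, hM.squarefree_of_dvd (Dvd.intro_left 2 rfl), ?_⟩
      unfold q2
      have e : (4 * t + 1) * (4 * (2 * l)) = 32 * (t * l) + 8 * l := by ring
      rw [e, if_neg (by omega)]
      ring
  · exact Or.inl ⟨h2, (Ng_odd hm h2).1⟩

theorem hy_of {A m : ℕ} (hA : Ps A) (hm : Ng m) (hcop : Nat.Coprime A m) : Hy (A * m) A A m := by
  have hA1 := Ps_pos hA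
  have hm1 := Ng_pos hm
  refine ⟨by omega, dvd_refl A, ?_, by omega, hcop⟩
  intro h2
  obtain ⟨-, M, rfl, -, h4⟩ := Ps_even hA h2
  have hm2 : ¬ 2 ∣ m := (par_of hcop).resolve_left (fun h => h h2)
  obtain ⟨-, hm4⟩ := Ng_odd hm hm2
  obtain ⟨t, rfl⟩ : ∃ t, m = 4 * t + 3 := ⟨m / 4, by omega⟩
  unfold q2
  rcases h4 with h4 | h4
  · obtain ⟨l, rfl⟩ : ∃ l, M = 2 * l := ⟨M / 2, by omega⟩
    have e : 4 * (2 * l) * (4 * t + 3) = 32 * (l * t) + 24 * l := by ring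
    rw [e, if_neg (by omega)]
    exact ⟨l, by ring⟩
  · have e : 4 * M * (4 * t + 3) = 16 * (M * t) + 12 * M := by ring
    rw [e, if_pos (by omega)]
    exact ⟨M, rfl⟩

theorem sq_not {A m : ℕ} (hm : Ng m) (hcop : Nat.Coprime A m) :
    ∀ p ∈ m.primeFactors.erase 2, ¬ p ^ 2 ∣ A * m := by
  intro p hp h
  rw [Finset.mem_erase] at hp
  have hpp := Nat.prime_of_mem_primeFactors hp.2
  have hpm := Nat.dvd_of_mem_primeFactors hp.2
  have h1 : Nat.Coprime (p ^ 2) A :=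
    Nat.Coprime.pow_left 2 (Nat.Coprime.coprime_dvd_left hpm hcop.symm)
  have h2 := h1.dvd_of_dvd_mul_left h
  by_cases h3 : 2 ∣ m
  · obtain ⟨M, rfl, hM, h4⟩ := Ng_even hm h3
    have h5 : Nat.Coprime (p ^ 2) 4 := by
      have h10 : Nat.Coprime p 2 := (Nat.coprime_primes hpp Nat.prime_two).2 hp.1
      exact Nat.Coprime.pow 2 2 h10
    have h6 := h5.dvd_of_dvd_mul_left h2
    rw [pow_two] at h6
    exact hpp.one_lt.ne' (Nat.isUnit_iff.1 (hM p h6))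
  · rw [pow_two] at h2
    exact hpp.one_lt.ne' (Nat.isUnit_iff.1 ((Ng_odd hm h3).1 p h2))

theorem chM_refl {m : ℕ} (hm : Ng m) (u : ℤ) : chM m ((m : ℤ) - u) = -chM m u := by
  by_cases h2 : 2 ∣ m
  · have hE := Ng_even hm h2
    rw [chM_even hE, chM_even hE, chE_odd hE]
  · obtain ⟨h3, h4⟩ := Ng_odd hm h2
    rw [chM_odd h3 h4, chM_odd h3 h4, jac_odd h4]

/-! ### the general statement for the weights of `P15G` -/

open Classical in
theorem Fx_SA (w : ℕ → ℤ × ℤ × ℤ → ℤ) (A : ℕ) (x M : ℤ) :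
    Fx w A x M = ∑ᶠ q ∈ SA A x M, w A q * gnE A q := by
  unfold Fx
  refine finsum_congr fun q => ?_
  rw [finsum_eq_if]
  by_cases h : q ∈ SA A x M
  · rw [if_pos h]
    exact if_pos h
  · rw [if_neg h]
    exact if_neg h

theorem C1_gen {A m : ℕ} (hA : Ps A) (hm : Ng m) (hcop : Nat.Coprime A m)
    {w : ℕ → ℤ × ℤ × ℤ → ℤ} {ω : ℤ → ℤ → ℤ}
    (hW : ∀ a a' c c' : ℤ, a * c' - a' * c = A → gnE A (fo (a, a', c, c')) ≠ 0 →
      w A (fo (a, a', c, c')) = ω a a' - ω a' a) :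
    ∑ u ∈ un m, chM m u * Fx w A u m =
      2 * ∑ T ∈ range (A * m), WW ω (A * m) A (A * m) m (A * m - T) T := by
  have H := hy_of hA hm hcop
  have hm1 := Ng_pos hm
  have hA1 := Ps_pos hA
  have hGK := gnE_gK hA hm hcop
  have e1 : ∀ x : ℤ, Fx w A x m = GG ω (A * m) A A x m + -1 * GG ω (A * m) A A (-x) m := by
    intro x
    rw [Fx_SA]
    have h := cross (N := A * m) H.A0 (by omega : 0 < A) (fun p _ h => h) (W := w A) (ω := ω)
      (ε := -1) (fun a a' c c' h1 h2 => by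
        rw [hW a a' c c' h1 (by rw [hGK]; exact h2)]
        ring) x H.n0
    rw [← h]
    refine finsum_mem_congr rfl fun q _ => ?_
    rw [hGK]
  have e2 : ∑ u ∈ un m, chM m u * Fx w A u m =
      ∑ u ∈ un m, chM m u * GG ω (A * m) A A u m -
      ∑ u ∈ un m, chM m u * GG ω (A * m) A A (-(u : ℤ)) m := by
    rw [← Finset.sum_sub_distrib]
    refine Finset.sum_congr rfl fun u _ => ?_
    rw [e1]
    ring
  rw [e2, GG_odd ω H hm1 (chM_refl hm), ← GG_sum ω H (md_of hA hm hcop) (sq_not hm hcop)]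
  have e3 : ∀ u ∈ un m, chi (A * m) m u * GG ω (A * m) A A u m =
      chM m u * GG ω (A * m) A A u m := fun u _ => by rw [chM_chi hA hm hcop]
  rw [Finset.sum_congr rfl e3]
  ring

/-- restriction of the sums -/
theorem WW_ind (P Q : ℕ → Prop) [DecidablePred P] [DecidablePred Q] {N A N' n S T : ℕ}
    {ω : ℤ → ℤ → ℤ} (hω : ∀ a ∈ S.divisors, ∀ a' ∈ T.divisors, ω a a' = if P a ∧ Q a' then 1 else 0) :
    WW ω N A N' n S T = ∑ a ∈ S.divisors.filter P, ∑ a' ∈ T.divisors.filter Q,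
      (Lk N A a a' (S / a) (T / a') * Rk N' n a a' (S / a) (T / a')) := by
  unfold WW
  rw [Finset.sum_filter]
  refine Finset.sum_congr rfl fun a ha => ?_
  by_cases h : P a
  · rw [if_pos h, Finset.sum_filter]
    refine Finset.sum_congr rfl fun a' ha' => ?_
    rw [hω a ha a' ha']
    by_cases h' : Q a'
    · rw [if_pos ⟨h, h'⟩, if_pos h', one_mul]
    · rw [if_neg (fun h'' => h' h''.2), if_neg h', zero_mul]
  · rw [if_neg h]
    refine Finset.sum_eq_zero fun a' ha' => ?_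
    rw [hω a ha a' ha', if_neg (fun h'' => h h''.1), zero_mul]

theorem range_ind {f g : ℕ → ℤ} {N q : ℕ} (h : ∀ T, f T = g T)
    (h0 : ∀ T, ¬ q ∣ T → g T = 0) :
    ∑ T ∈ range N, f T = ∑ T ∈ (range N).filter (fun T => q ∣ T), g T := by
  rw [Finset.sum_filter]
  refine Finset.sum_congr rfl fun T _ => ?_
  rw [h]
  split_ifs with h1
  · rfl
  · exact h0 T h1

/-! ### the weights -/

open Classical in
/-- level `3` -/
def om3 (_ a' : ℤ) : ℤ := if (3 : ℤ) ∣ a' then 1 else 0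

open Classical in
def om03 (a a' : ℤ) : ℤ := if ¬ (5 : ℤ) ∣ a ∧ ((3 : ℤ) ∣ a' ∧ ¬ (5 : ℤ) ∣ a') then 1 else 0

open Classical in
def om0 (_ a' : ℤ) : ℤ := if (15 : ℤ) ∣ a' then 1 else 0

theorem dmul {p : ℕ} (hp : p.Prime) {a b : ℤ} : (p : ℤ) ∣ a * b ↔ (p : ℤ) ∣ a ∨ (p : ℤ) ∣ b :=
  (Nat.prime_iff_prime_int.1 hp).dvd_mul

theorem d3 {a b : ℤ} : (3 : ℤ) ∣ a * b ↔ (3 : ℤ) ∣ a ∨ (3 : ℤ) ∣ b := dmul Nat.prime_three

theorem d5 {a b : ℤ} : (5 : ℤ) ∣ a * b ↔ (5 : ℤ) ∣ a ∨ (5 : ℤ) ∣ b := dmul Nat.prime_five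

theorem d15 {a : ℤ} : (15 : ℤ) ∣ a ↔ (3 : ℤ) ∣ a ∧ (5 : ℤ) ∣ a := by omega

theorem w3_val {A : ℕ} (h3 : ¬ 3 ∣ A) {a a' c c' : ℤ} (hd : a * c' - a' * c = A) :
    w3 A (fo (a, a', c, c')) = om3 a a' - om3 a' a := by
  have h3' : ¬ (3 : ℤ) ∣ (A : ℤ) := fun h => h3 (by exact_mod_cast h)
  unfold w3 om3 fo
  simp only
  have e : a * c' + a' * c - (A : ℤ) = 2 * (a' * c) := by rw [← hd]; ring
  have e2 : (3 : ℤ) ∣ 2 * (a' * c) ↔ (3 : ℤ) ∣ a' * c := by omega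
  rw [e]
  simp only [e2, d3]
  by_cases h1 : (3 : ℤ) ∣ a'
  · have h2 : ¬ (3 : ℤ) ∣ a := fun h => h3' (by
      rw [← hd]; exact dvd_sub (h.mul_right _) (h1.mul_right _))
    rw [if_pos (Or.inr h1), if_pos (Or.inl h1), if_pos h1, if_neg h2]
    norm_num
  · by_cases h2 : (3 : ℤ) ∣ a
    · have h4 : ¬ (3 : ℤ) ∣ c := fun h => h3' (by
        rw [← hd]; exact dvd_sub (h2.mul_right _) (h.mul_left _))
      rw [if_pos (Or.inl h2), if_neg (by tauto), if_neg h1, if_pos h2]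
      norm_num
    · rw [if_neg (by tauto), if_neg h1, if_neg h2]
      norm_num

theorem w03_val {A : ℕ} (h3 : ¬ 3 ∣ A) {a a' c c' : ℤ} (hd : a * c' - a' * c = A) :
    w03 A (fo (a, a', c, c')) = om03 a a' - om03 a' a := by
  unfold w03
  rw [w3_val h3 hd]
  have e : (fo (a, a', c, c')).1 = a * a' := rfl
  rw [e]
  unfold om03 om3
  simp only [d5]
  by_cases h1 : (5 : ℤ) ∣ a
  · rw [if_pos (Or.inl h1), if_neg (by tauto), if_neg (by tauto)]
    norm_num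
  · by_cases h2 : (5 : ℤ) ∣ a'
    · rw [if_pos (Or.inr h2), if_neg (by tauto), if_neg (by tauto)]
      norm_num
    · rw [if_neg (by tauto)]
      simp only [h1, h2, not_false_eq_true, true_and, and_true]

theorem gn5 {A : ℕ} (hA : A ≠ 0) (h5 : 5 ∣ A) {q : ℤ × ℤ × ℤ} (hq : gnE A q ≠ 0)
    (h : (5 : ℤ) ∣ q.1) : ¬ (5 : ℤ) ∣ q.2.2 := by
  intro h1
  apply hq
  unfold gnE
  rw [Finset.prod_eq_zero (i := 5), mul_zero]
  · exact Finset.mem_erase.2 ⟨by norm_num, Nat.mem_primeFactors.2 ⟨Nat.prime_five, h5, hA⟩⟩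
  · exact gen_dvd Nat.prime_five h h1

theorem w0_val {A : ℕ} (hA : A ≠ 0) (h3 : ¬ 3 ∣ A) {a a' c c' : ℤ} (hd : a * c' - a' * c = A)
    (hg : gnE A (fo (a, a', c, c')) ≠ 0) :
    w0 A (fo (a, a', c, c')) = om0 a a' - om0 a' a := by
  have h3' : ¬ (3 : ℤ) ∣ (A : ℤ) := fun h => h3 (by exact_mod_cast h)
  have k3 : ¬ ((3 : ℤ) ∣ a ∧ (3 : ℤ) ∣ a') := fun h => h3' (by
    rw [← hd]; exact dvd_sub (h.1.mul_right _) (h.2.mul_right _))
  have k3c : ¬ ((3 : ℤ) ∣ a ∧ (3 : ℤ) ∣ c) := fun h => h3' (by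
    rw [← hd]; exact dvd_sub (h.1.mul_right _) (h.2.mul_left _))
  have k3c' : ¬ ((3 : ℤ) ∣ a' ∧ (3 : ℤ) ∣ c') := fun h => h3' (by
    rw [← hd]; exact dvd_sub (h.2.mul_left _) (h.1.mul_right _))
  unfold w0
  rw [w3_val h3 hd]
  have e1 : (fo (a, a', c, c')).1 = a * a' := rfl
  have e2 : (fo (a, a', c, c')).2.1 = a * c' + a' * c := rfl
  rw [e1, e2]
  have e3 : a * c' + a' * c - (A : ℤ) = 2 * (a' * c) := by rw [← hd]; ring
  have e4 : a * c' + a' * c + (A : ℤ) = 2 * (a * c') := by rw [← hd]; ring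
  have e5 : ∀ z : ℤ, (15 : ℤ) ∣ 2 * z ↔ (3 : ℤ) ∣ z ∧ (5 : ℤ) ∣ z := fun z => by omega
  rw [e3, e4]
  unfold om0 om3
  simp only [e5, d15, d3, d5]
  by_cases h5A : 5 ∣ A
  · have h5A' : (5 : ℤ) ∣ (A : ℤ) := by exact_mod_cast h5A
    by_cases h5 : (5 : ℤ) ∣ a * a'
    · obtain ⟨q1, q2'⟩ := pdvd Nat.prime_five hd h5A' h5
      have q3 := gn5 hA h5A hg h5
      have e6 : (fo (a, a', c, c')).2.2 = c * c' := rfl
      rw [e6, d5] at q3
      have q1' : (5 : ℤ) ∣ a * c' := q1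
      have q2'' : (5 : ℤ) ∣ a' * c := q2'
      rw [d5] at q1' q2''
      have ha : (5 : ℤ) ∣ a := by tauto
      have ha' : (5 : ℤ) ∣ a' := by tauto
      simp only [ha, ha', true_or, or_true, and_true, true_and]
      by_cases h1 : (3 : ℤ) ∣ a'
      · have h2 : ¬ (3 : ℤ) ∣ a := fun h => k3 ⟨h, h1⟩
        simp [h1, h2]
      · by_cases h2 : (3 : ℤ) ∣ a
        · simp [h1, h2]
        · simp [h1, h2]
    · rw [d5] at h5
      have n1 : ¬ (5 : ℤ) ∣ a := by tauto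
      have n2 : ¬ (5 : ℤ) ∣ a' := by tauto
      simp [n1, n2]
  · have h5A' : ¬ (5 : ℤ) ∣ (A : ℤ) := fun h => h5A (by exact_mod_cast h)
    have k5 : ¬ ((5 : ℤ) ∣ a ∧ (5 : ℤ) ∣ a') := fun h => h5A' (by
      rw [← hd]; exact dvd_sub (h.1.mul_right _) (h.2.mul_right _))
    have k5c : ¬ ((5 : ℤ) ∣ a ∧ (5 : ℤ) ∣ c) := fun h => h5A' (by
      rw [← hd]; exact dvd_sub (h.1.mul_right _) (h.2.mul_left _))
    have k5c' : ¬ ((5 : ℤ) ∣ a' ∧ (5 : ℤ) ∣ c') := fun h => h5A' (by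
      rw [← hd]; exact dvd_sub (h.2.mul_left _) (h.1.mul_right _))
    by_cases h5a' : (5 : ℤ) ∣ a'
    · have n5a : ¬ (5 : ℤ) ∣ a := fun h => k5 ⟨h, h5a'⟩
      have n5c' : ¬ (5 : ℤ) ∣ c' := fun h => k5c' ⟨h5a', h⟩
      simp only [h5a', n5a, n5c', or_true, true_or, and_true, and_false, or_false, true_and,
        if_false, sub_zero]
      by_cases h1 : (3 : ℤ) ∣ a'
      · have h2 : ¬ (3 : ℤ) ∣ a := fun h => k3 ⟨h, h1⟩
        simp [h1, h2]
      · by_cases h2 : (3 : ℤ) ∣ a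
        · have h4 : ¬ (3 : ℤ) ∣ c := fun h => k3c ⟨h2, h⟩
          simp [h1, h4]
        · simp [h1, h2]
    · by_cases h5a : (5 : ℤ) ∣ a
      · have n5c : ¬ (5 : ℤ) ∣ c := fun h => k5c ⟨h5a, h⟩
        simp only [h5a', h5a, n5c, true_or, and_true, and_false, or_false, false_or,
          true_and, if_false, zero_sub]
        by_cases h1 : (3 : ℤ) ∣ a
        · have h2 : ¬ (3 : ℤ) ∣ a' := fun h => k3 ⟨h1, h⟩
          simp [h1, h2]
        · by_cases h2 : (3 : ℤ) ∣ a'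
          · have h4 : ¬ (3 : ℤ) ∣ c' := fun h => k3c' ⟨h2, h⟩
            simp [h1, h4]
          · simp [h1, h2]
      · simp [h5a, h5a']

/-- **C1** -/
theorem t_C1 : S_C1 := by
  intro A m hA hm hcop h3 h15
  have hA0 : A ≠ 0 := by have := Ps_pos hA; omega
  refine ⟨?_, ?_, ?_⟩
  · rw [C1_gen hA hm hcop (w := w0) (ω := om0) fun a a' c c' h1 h2 => w0_val hA0 h3 h1 h2]
    congr 1
    refine range_ind (fun T => ?_) (fun T hT => ?_)
    · rw [WW_ind (fun _ => True) (15 ∣ ·)]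
      · unfold W0 kr
        rw [Finset.filter_true_of_mem fun _ _ => trivial]
        rfl
      · intro a _ a' _
        unfold om0
        have : (15 : ℤ) ∣ (a' : ℤ) ↔ 15 ∣ a' := by exact_mod_cast Iff.rfl
        simp only [this, true_and]
    · unfold W0
      refine Finset.sum_eq_zero fun a _ => ?_
      rw [Finset.filter_false_of_mem, Finset.sum_empty]
      intro a' ha' h
      exact hT (h.trans (Nat.dvd_of_mem_divisors ha'))
  · rw [C1_gen hA hm hcop (w := w03) (ω := om03) fun a a' c c' h1 _ => w03_val h3 h1]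
    congr 1
    refine range_ind (fun T => ?_) (fun T hT => ?_)
    · rw [WW_ind (fun a => ¬ 5 ∣ a) (fun a' => 3 ∣ a' ∧ ¬ 5 ∣ a')]
      · rfl
      · intro a _ a' _
        unfold om03
        have e3 : (3 : ℤ) ∣ (a' : ℤ) ↔ 3 ∣ a' := by exact_mod_cast Iff.rfl
        have e5 : ∀ z : ℕ, (5 : ℤ) ∣ (z : ℤ) ↔ 5 ∣ z := fun z => by exact_mod_cast Iff.rfl
        simp only [e3, e5]
    · unfold W03
      refine Finset.sum_eq_zero fun a _ => ?_
      rw [Finset.filter_false_of_mem, Finset.sum_empty]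
      rintro a' ha' ⟨h, -⟩
      exact hT (h.trans (Nat.dvd_of_mem_divisors ha'))
  · rw [C1_gen hA hm hcop (w := w3) (ω := om3) fun a a' c c' h1 _ => w3_val h3 h1]
    congr 1
    refine range_ind (fun T => ?_) (fun T hT => ?_)
    · rw [WW_ind (fun _ => True) (3 ∣ ·)]
      · unfold W3 kr
        rw [Finset.filter_true_of_mem fun _ _ => trivial]
        rfl
      · intro a _ a' _
        unfold om3
        have : (3 : ℤ) ∣ (a' : ℤ) ↔ 3 ∣ a' := by exact_mod_cast Iff.rfl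
        simp only [this, true_and]
    · unfold W3
      refine Finset.sum_eq_zero fun a _ => ?_
      rw [Finset.filter_false_of_mem, Finset.sum_empty]
      intro a' ha' h
      exact hT (h.trans (Nat.dvd_of_mem_divisors ha'))

/-! ### the dual sum -/

theorem md_three {A : ℕ} (hA : Ps A) : Md (3 * A) A := by
  by_cases h2 : 2 ∣ A
  · right
    obtain ⟨-, M, rfl, hM, h4⟩ := Ps_even hA h2
    rcases h4 with h4 | h4
    · obtain ⟨l, rfl⟩ : ∃ l, M = 2 * l := ⟨M / 2, by omega⟩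
      refine ⟨l, by omega, hM.squarefree_of_dvd (Dvd.intro_left 2 rfl), ?_⟩
      unfold q2
      rw [if_neg (by omega)]
      ring
    · refine ⟨M, by omega, hM, ?_⟩
      unfold q2
      rw [if_pos (by omega)]
  · exact Or.inl ⟨h2, (Ps_odd hA h2).1⟩

theorem sq_not3 {A : ℕ} (hA : Ps A) (h3 : ¬ 3 ∣ A) :
    ∀ p ∈ A.primeFactors.erase 2, ¬ p ^ 2 ∣ 3 * A := by
  intro p hp h
  rw [Finset.mem_erase] at hp
  have hpp := Nat.prime_of_mem_primeFactors hp.2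
  have hpm := Nat.dvd_of_mem_primeFactors hp.2
  have h1 : Nat.Coprime (p ^ 2) 3 := by
    refine Nat.Coprime.pow_left 2 ((Nat.coprime_primes hpp Nat.prime_three).2 ?_)
    rintro rfl
    exact h3 hpm
  have h2 := h1.dvd_of_dvd_mul_left h
  by_cases h3 : 2 ∣ A
  · obtain ⟨-, M, rfl, hM, h4⟩ := Ps_even hA h3
    have h5 : Nat.Coprime (p ^ 2) 4 := by
      have h10 : Nat.Coprime p 2 := (Nat.coprime_primes hpp Nat.prime_two).2 hp.1
      exact Nat.Coprime.pow 2 2 h10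
    have h6 := h5.dvd_of_dvd_mul_left h2
    rw [pow_two] at h6
    exact hpp.one_lt.ne' (Nat.isUnit_iff.1 (hM p h6))
  · rw [pow_two] at h2
    exact hpp.one_lt.ne' (Nat.isUnit_iff.1 ((Ps_odd hA h3).1 p h2))

open Classical in
def omD (a a' : ℤ) : ℤ :=
  if ((3 : ℤ) ∣ a ∧ ¬ (5 : ℤ) ∣ a) ∧ ((3 : ℤ) ∣ a' ∧ ¬ (5 : ℤ) ∣ a') then 1 else 0

theorem gK_three (N : ℕ) (q : ℤ × ℤ × ℤ) : gK N 3 q = gen 3 q := by
  unfold gK
  have e : (3 : ℕ).primeFactors.erase 2 = {3} := by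
    rw [Nat.Prime.primeFactors Nat.prime_three]
    decide
  rw [if_neg (by norm_num), one_mul, e, Finset.prod_singleton]

/-- **C1D** -/
theorem t_C1D : S_C1D := by
  classical
  intro A hA h3
  have hA1 := Ps_pos hA
  have hcop : Nat.Coprime 3 A := (Nat.Prime.coprime_iff_not_dvd Nat.prime_three).2 h3
  have H : Hy (3 * A) 3 3 A := ⟨by norm_num, dvd_refl 3, fun h => by omega, by omega, hcop⟩
  have e1 : ∀ x : ℤ, Fd x A = GG omD (3 * A) 3 (3 : ℕ) x A := by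
    intro x
    have h := cross (N := 3 * A) (A := 3) (d := 3) (by norm_num) (by norm_num)
      (fun p hp h => h) (W := fun q => if (9 : ℤ) ∣ q.1 ∧ ¬ (5 : ℤ) ∣ q.1 then 1 else 0)
      (ω := omD) (ε := 0) (fun a a' c c' h1 h2 => by
        rw [gK_three] at h2
        have e1 : (fo (a, a', c, c')).1 = a * a' := rfl
        have e2 : (fo (a, a', c, c')).2.2 = c * c' := rfl
        unfold omD
        simp only [e1]
        have h1' : a * c' - a' * c = 3 := by exact_mod_cast h1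
        have key : (9 : ℤ) ∣ a * a' ↔ (3 : ℤ) ∣ a ∧ (3 : ℤ) ∣ a' := by
          constructor
          · intro h9
            have h33 : (3 : ℤ) ∣ a * a' := Dvd.dvd.trans (by norm_num) h9
            obtain ⟨q1, q2'⟩ := pdvd Nat.prime_three h1' (dvd_refl 3) h33
            have q1' : (3 : ℤ) ∣ a * c' := q1
            have q2'' : (3 : ℤ) ∣ a' * c := q2'
            have q3 : ¬ (3 : ℤ) ∣ c * c' := by
              intro h4
              apply h2
              exact gen_dvd Nat.prime_three h33 h4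
            rw [d3] at q1' q2'' q3
            tauto
          · rintro ⟨⟨k, rfl⟩, ⟨l, rfl⟩⟩
            exact ⟨k * l, by ring⟩
        simp only [key, d5]
        by_cases g1 : (3 : ℤ) ∣ a <;> by_cases g2 : (3 : ℤ) ∣ a' <;> by_cases g3 : (5 : ℤ) ∣ a <;>
          by_cases g4 : (5 : ℤ) ∣ a' <;> simp [g1, g2, g3, g4]) x H.n0
    rw [zero_mul, add_zero] at h
    rw [← h]
    unfold Fd
    refine finsum_congr fun q => ?_
    rw [finsum_eq_if, gK_three]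
    by_cases h1 : q ∈ SA (3 : ℕ) x A
    · rw [if_pos h1]
      obtain ⟨k1, k2, k3⟩ := h1
      by_cases h9 : (9 : ℤ) ∣ q.1 ∧ ¬ (5 : ℤ) ∣ q.1
      · rw [if_pos h9, one_mul]
        have k4 : q.2.1 ^ 2 - 4 * q.1 * q.2.2 = 9 := by rw [k1]; norm_num
        refine (if_pos ⟨k4, h9.1, h9.2, k2, k3⟩).trans ?_
        unfold gen
        rw [if_pos (Dvd.dvd.trans (by norm_num) h9.1)]
      · rw [if_neg h9, zero_mul]
        exact if_neg fun h => h9 ⟨h.2.1, h.2.2.1⟩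
    · rw [if_neg h1]
      refine if_neg fun h => h1 ⟨?_, h.2.2.2.1, h.2.2.2.2⟩
      rw [h.1]; norm_num
  have e2 : ∀ u ∈ un A, chP A u * Fd u A = chi (3 * A) A u * GG omD (3 * A) 3 (3 : ℕ) u A := by
    intro u _
    rw [e1]
    rfl
  rw [Finset.sum_congr rfl e2, GG_sum omD H (md_three hA) (sq_not3 hA h3)]
  refine range_ind (fun T => ?_) (fun T hT => ?_)
  · rw [WW_ind (fun a => 3 ∣ a ∧ ¬ 5 ∣ a) (fun a' => 3 ∣ a' ∧ ¬ 5 ∣ a')]
    · rfl
    · intro a _ a' _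
      unfold omD
      have e3 : ∀ z : ℕ, (3 : ℤ) ∣ (z : ℤ) ↔ 3 ∣ z := fun z => by exact_mod_cast Iff.rfl
      have e5 : ∀ z : ℕ, (5 : ℤ) ∣ (z : ℤ) ↔ 5 ∣ z := fun z => by exact_mod_cast Iff.rfl
      simp only [e3, e5]
  · unfold WD
    refine Finset.sum_eq_zero fun a _ => ?_
    rw [Finset.filter_false_of_mem, Finset.sum_empty]
    rintro a' ha' ⟨h, -⟩
    exact hT (h.trans (Nat.dvd_of_mem_divisors ha'))

end

end Pool.Agent.N971.P15G
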