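import Pool.Agent.N609.CNF.Fin2
import Pool.Agent.N878.PC21.PE
import Pool.Agent.N809.PG.Cnf
import Pool.Agent.N809.PG.CnfE
import Pool.Agent.N609.P17.CnfE
import Pool.Agent.N973.P15G.Defs2

/-!
# CNF, CNF4 of project P15G: the class number formula for the boundary terms

The lattice of the quaternion algebra ramified at `3` (`N877.P21.vec`).
-/

set_option autoImplicit false

namespace Pool.Agent.N971.P15G

open Finset
open Pool.Agent.Z700 (hh fac)
open Pool.Agent.N969.P15 (V3 tw tb ep2 Ev un chE c2)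
open Pool.Agent.N969.P17G (chP chM bdE)
open Pool.Agent.N877.P21 (ip vec rr cp loc locE loc3 loc3E)
open Pool.Agent.N609.CNF (Gc locq locr locqE locrE final finalR finalE finalRE cp_zero total totalE
  cpE ev_ne)
open Pool.Agent.N809.PG (HS CS CG TG Bd ShP ShM chP_eq chM_eq chr_P chr_M prod_char neg_P neg_M
  recip hp_P hp_M dedG lineA TG_half sum_sqf ded_half ep2_eq sum_half)
open Pool.Agent.N973.P15G

/-- the lattice -/
def gl : Gc := ⟨3, 4, 4, 0, 0, -2⟩

lemma doml : gl.Dom := by unfold Gc.Dom gl; norm_num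

lemma ip_eq (v w : V3) : ip v w = Pool.Agent.N609.CNF.ip gl v w := by
  simp only [ip, Pool.Agent.N609.CNF.ip, gl]; ring

lemma vec_eq (n : ℤ) : vec n = Pool.Agent.N609.CNF.vec gl n := by
  ext v
  simp only [vec, Pool.Agent.N609.CNF.vec, mem_filter, ip_eq]

lemma cp_eq (n b m : ℤ) : cp n b m = Pool.Agent.N609.CNF.cp gl n b m := by
  simp only [cp, Pool.Agent.N609.CNF.cp, vec_eq, ip_eq]

lemma tot (n : ℕ) (hn : 0 < n) : ∃ κ K' : ℝ, ∀ t : ℝ, 0 < t → t ≤ 1 →
    ∃ s : ℝ, HasSum (fun k : ℕ => ((cp n 0 k : ℤ) : ℝ) * Real.exp (-(t * k))) s ∧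
      |s - κ / t| ≤ K' * t := by
  obtain ⟨κ1, K1, h1⟩ := total doml n hn
  refine ⟨κ1, K1, fun t ht ht1 => ?_⟩
  obtain ⟨s1, hs1, hb1⟩ := h1 t ht ht1
  refine ⟨s1, ?_, hb1⟩
  refine hs1.congr_fun fun k => ?_
  rw [cp_eq]
  push_cast
  ring

lemma c_zero (n : ℕ) : (cp n 0 (0 : ℕ) : ℤ) = rr n := by
  have c1 := cp_zero doml n
  simp only [Nat.cast_zero, cp_eq, c1, rr, vec_eq]

/-- the sublattice of the vectors with norm divisible by `4` -/
def El : Submodule ℤ V3 where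
  carrier := {w | (2 : ℤ) ∣ w 0}
  add_mem' := by
    intro a b ha hb
    have := dvd_add ha hb
    simp only [Set.mem_ofPred_eq, Pi.add_apply]
    exact this
  zero_mem' := by simp
  smul_mem' := by
    intro c a ha
    simp only [Set.mem_ofPred_eq, Pi.smul_apply, smul_eq_mul] at ha ⊢
    exact ha.mul_left c

lemma mem_El (w : V3) : w ∈ El ↔ (2 : ℤ) ∣ w 0 := Iff.rfl

lemma two_El (w : V3) : (2 : ℤ) • w ∈ El := by
  rw [mem_El]
  simp only [Pi.smul_apply, smul_eq_mul]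
  exact ⟨w 0, by ring⟩

lemma four_El {w : V3} {k : ℤ} (h : Pool.Agent.N609.CNF.ip gl w w = k) : w ∈ El ↔ (4 : ℤ) ∣ k := by
  rw [mem_El, Pool.Agent.N609.P17.four_sq (k := k) (x := w 0)
    (z := w 0 ^ 2 + w 1 ^ 2 + w 2 ^ 2 + w 1 * w 2)]
  rw [← h]
  simp only [Pool.Agent.N609.CNF.ip, gl]
  ring

lemma totE (n : ℕ) (hn : 0 < n) : ∃ κ K' : ℝ, ∀ t : ℝ, 0 < t → t ≤ 1 →
    ∃ s : ℝ, HasSum (fun k : ℕ =>
      ((if 4 ∣ k then (cp n 0 k : ℤ) else 0 : ℤ) : ℝ) * Real.exp (-(t * k))) s ∧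
      |s - κ / t| ≤ K' * t := by
  obtain ⟨κ1, K1, h1⟩ := totalE doml two_El n hn
  refine ⟨κ1, K1, fun t ht ht1 => ?_⟩
  obtain ⟨s1, hs1, hb1⟩ := h1 t ht ht1
  refine ⟨s1, ?_, hb1⟩
  refine hs1.congr_fun fun k => ?_
  rw [Pool.Agent.N609.P17.cpE_ite (fun w k h => four_El h), cp_eq]
  split_ifs <;> push_cast <;> ring

/-! ### the class number formula for the number of vectors -/

/-- odd, `3` inert -/
theorem cn_odd {n : ℕ} (hn : Squarefree n) (h4 : n % 4 = 3) (h3 : n % 3 = 1) :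
    12 * HS n = (2 - ep2 n) * rr n := by
  have hn0 : 0 < n := by omega
  have h3' : ¬ 3 ∣ n := by omega
  have hj : jacobiSym ((3 : ℕ) : ℤ) n = -1 := by
    rw [jacobiSym.quadratic_reciprocity_three_mod_four (by norm_num) h4]
    have : jacobiSym (n : ℤ) 3 = 1 := by
      rw [jacobiSym.mod_left, show ((n : ℤ) % ((3 : ℕ) : ℤ)) = 1 by push_cast; omega]
      exact jacobiSym.one_left 3
    rw [this]
  have key := final (q := 3) (n := n) 12 (by norm_num) (by norm_num) hn h4 hj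
    (fun k : ℕ => ((cp n 0 k : ℤ) : ℝ)) (rr n) ?_ ?_ (tot n hn0)
  · unfold ep2 HS
    exact_mod_cast key
  · simp only [c_zero]
  · intro k hk
    have h := Pool.Agent.N878.PC21.t_PC n k 0 (n * k) hn h4 h3'
      (Nat.mul_pos hn0 (Nat.pos_of_ne_zero hk)) (by push_cast; ring)
    simp only [h]
    push_cast
    rfl

/-- odd, `3 ∣ n` -/
theorem cn_odd3 {n : ℕ} (hn : Squarefree n) (h4 : n % 4 = 3) (h3 : 3 ∣ n) :
    6 * HS n = (2 - ep2 n) * rr n := by
  have hn0 : 0 < n := by omega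
  have key := finalR (q := 3) (n := n) 12 (by norm_num) hn h4 h3
    (fun k : ℕ => ((cp n 0 k : ℤ) : ℝ)) (rr n) ?_ ?_ (tot n hn0)
  · have h2 : (12 : ℤ) * HS n = 2 * ((2 - ep2 n) * rr n) := by
      unfold ep2 HS
      exact_mod_cast key
    linarith
  · simp only [c_zero]
  · intro k hk
    have hD : 0 < n * k := Nat.mul_pos hn0 (Nat.pos_of_ne_zero hk)
    have h := Pool.Agent.N878.PC21.t_PC3w n k 0 (n * k) hn h4 h3 hD (by push_cast; ring)
    have h' := Pool.Agent.N878.PC21.t_PC3 n k 0 (n * k) hn h4 h3 hD (by push_cast; ring)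
    have h3D : 3 ∣ n * k := h3.mul_right k
    rw [if_pos h3D] at h
    unfold loc3 at h'
    rw [if_pos h3D] at h'
    unfold locr
    have e : (cp n 0 k : ℤ) = 12 * (if 3 ∣ n * k ∧ hh n (n * k) 3 = -1 then
        tw n (n * k) * ∏ l ∈ ((n * k).primeFactors.erase 2).erase 3, fac n (n * k) l else 0) := by
      by_cases hh3 : hh n (n * k) 3 = -1
      · rw [if_pos ⟨h3D, hh3⟩, h]
      · rw [if_neg (fun hx => hh3 hx.2), mul_zero]
        have h5 : (1 + hh n (n * k) 3) *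
            (tw n (n * k) * ∏ l ∈ ((n * k).primeFactors.erase 2).erase 3, fac n (n * k) l) = 0 := by
          linarith
        rcases mul_eq_zero.1 h5 with h6 | h6
        · exact absurd (by linarith) hh3
        · rw [h, h6, mul_zero]
    simp only [e]
    push_cast
    rfl

/-- even, `3` inert -/
theorem cn_even {n : ℕ} (hn : Ev n) (h3 : n % 3 = 1) :
    6 * ∑ u ∈ (range n).filter (fun u => 2 * u < n), chE n u = rr n := by
  have hn0 : 0 < n := Nat.pos_of_ne_zero (ev_ne hn)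
  have h5 : jacobiSym (-(n : ℤ)) 3 = -1 := by
    rw [jacobiSym.mod_left, show ((-(n : ℤ)) % ((3 : ℕ) : ℤ)) = 2 by push_cast; omega]
    decide +kernel
  have key := finalE (q := 3) (n := n) 12 (by norm_num) (by norm_num) hn h5 (by omega)
    (fun k : ℕ => ((if 4 ∣ k then (cp n 0 k : ℤ) else 0 : ℤ) : ℝ)) (rr n) ?_ ?_ ?_ (totE n hn0)
  · have h2 : (12 : ℤ) * ∑ u ∈ (range n).filter (fun u => 2 * u < n), chE n u = 2 * rr n := by
      exact_mod_cast key
    linarith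
  · simp only [dvd_zero, if_true, c_zero]
  · intro k hk h4
    have h := Pool.Agent.N878.PC21.t_PCE n k 0 (n * k) hn h3 h4
      (Nat.mul_pos hn0 (Nat.pos_of_ne_zero hk)) (by push_cast; ring)
    simp only [h4, if_true, h]
    push_cast
    rfl
  · intro k h4
    simp only [h4, if_false, Int.cast_zero]

/-- even, `3 ∣ n` -/
theorem cn_even3 {n : ℕ} (hn : Ev n) (h3 : 3 ∣ n) :
    3 * ∑ u ∈ (range n).filter (fun u => 2 * u < n), chE n u = rr n := by
  have hn0 : 0 < n := Nat.pos_of_ne_zero (ev_ne hn)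
  have key := finalRE (q := 3) (n := n) 12 (by norm_num) (by norm_num) hn h3
    (fun k : ℕ => ((if 4 ∣ k then (cp n 0 k : ℤ) else 0 : ℤ) : ℝ)) (rr n) ?_ ?_ ?_ (totE n hn0)
  · have h2 : (12 : ℤ) * ∑ u ∈ (range n).filter (fun u => 2 * u < n), chE n u = 4 * rr n := by
      exact_mod_cast key
    linarith
  · simp only [dvd_zero, if_true, c_zero]
  · intro k hk h4
    have hD : 0 < n * k := Nat.mul_pos hn0 (Nat.pos_of_ne_zero hk)
    have h3D : 3 ∣ n * k := h3.mul_right k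
    have h := Pool.Agent.N878.PC21.t_PC3E n k 0 (n * k) hn h3 h4 hD (by push_cast; ring)
    unfold loc3E at h
    rw [if_pos h3D] at h
    have h9 : ¬ 9 ∣ n := by
      obtain ⟨M, rfl, hM, -⟩ := hn
      intro h9
      have h10 : 9 ∣ M := (by norm_num : Nat.Coprime 9 4).dvd_of_dvd_mul_left h9
      exact Pool.Agent.N878.PC21.not_nine hM h10
    unfold locrE
    have e : (cp n 0 k : ℤ) = 12 * (if 3 ∣ n * k ∧ hh n (n * k) 3 = -1 then
        tb 0 * ∏ l ∈ ((n * k).primeFactors.erase 2).erase 3, fac n (n * k) l else 0) := by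
      rcases Pool.Agent.N878.PC21.hh_pm h9 h3 hD with hh3 | hh3
      · rw [if_neg (fun hx => by rw [hh3] at hx; norm_num at hx), h, hh3]
        ring
      · rw [if_pos ⟨h3D, hh3⟩, h, hh3]
        ring
    simp only [h4, if_true, e]
    push_cast
    rfl
  · intro k h4
    simp only [h4, if_false, Int.cast_zero]

/-! ### the boundary terms -/

/-- the shape of a positive discriminant -/
lemma shP {A : ℕ} (h : Ps A) : ∃ k, ShP A k := by
  rcases h with ⟨h1, h2, -⟩ | ⟨M, hM, h1, h2⟩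
  · exact ⟨A, h1, by omega, Pool.Agent.N809.PG.erase_two (by omega), Or.inl ⟨rfl, h2⟩⟩
  · obtain ⟨k, e1, e2, e3, e4⟩ := Pool.Agent.N974.Gen.ChP.ev_odd (n := A) ⟨M, hM, h1, by omega⟩
    exact ⟨k, e1, e2, e4, by tauto⟩

/-- the shape of a negative discriminant -/
lemma shM {m : ℕ} (h : Ng m) : ∃ k, ShM m k := by
  rcases h with ⟨h1, h2⟩ | h1
  · exact ⟨m, h1, by omega, Pool.Agent.N809.PG.erase_two (by omega), Or.inl ⟨rfl, h2⟩⟩
  · obtain ⟨k, e1, e2, e3, e4⟩ := Pool.Agent.N975.ChE.ev_odd h1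
    exact ⟨k, e1, e2, e4, by tauto⟩

/-- both odd -/
theorem CG_odd {A m : ℕ} (hA : Ps A) (hm : Ng m) (hc : Nat.Coprime A m) (hA2 : ¬ 2 ∣ A)
    (hm2 : ¬ 2 ∣ m) : (2 - ep2 (A * m)) * CG A m (chP A) (chM m) = HS (A * m) := by
  obtain ⟨k, hP⟩ := shP hA
  obtain ⟨l, hM⟩ := shM hm
  have hAk : A = k ∧ k % 4 = 1 := by
    rcases hP.2.2.2 with h | ⟨e, -⟩ | e
    · exact h
    · omega
    · omega
  have hml : m = l ∧ l % 4 = 3 := by
    rcases hM.2.2.2 with h | ⟨e, -⟩ | e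
    · exact h
    · omega
    · omega
  have hA1 : 1 < A := by
    rcases hA with ⟨-, -, h⟩ | ⟨M, h, -, -⟩
    · exact h
    · omega
  have hCS : CG A m (chP A) (chM m) = CS A m := by
    unfold CG CS
    refine Finset.sum_congr rfl fun t _ => ?_
    rw [chM_eq hM, if_neg hm2, one_mul, ← hml.1]
    congr 1
    refine Finset.sum_congr rfl fun j _ => ?_
    rw [chP_eq hP, if_neg hA2, one_mul, ← hAk.1]
  have hn4 : (A * m) % 4 = 3 := by
    rw [Nat.mul_mod, hAk.1, hml.1, hAk.2, hml.2]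
  rw [hCS, ep2_eq hn4]
  exact ded_half hA1 (by omega) (by omega) (by omega) hc
    (sum_sqf hA1 (Nat.odd_iff.2 (by omega)) (by rw [hAk.1]; exact hP.1))

lemma chP_sum {A : ℕ} (hA : Ps A) : ∑ j ∈ range A, chP A j = 0 := by
  obtain ⟨k, hP⟩ := shP hA
  have hA1 : 1 < A := by
    rcases hA with ⟨-, -, h⟩ | ⟨M, h, -, h2⟩
    · exact h
    · omega
  rcases hP.2.2.2 with ⟨e, h4⟩ | h4
  · have : ∀ j ∈ range A, chP A (j : ℤ) = jacobiSym j A := by
      intro j _
      rw [chP_eq hP, if_neg (by have := hP.2.1; omega), one_mul, e]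
    rw [Finset.sum_congr rfl this]
    exact sum_sqf hA1 (Nat.odd_iff.2 (by have := hP.2.1; omega)) (by rw [e]; exact hP.1)
  · rcases hp_P hP with h5 | ⟨j, h6, h7, h8⟩
    · rw [Nat.odd_iff] at h5
      omega
    · rw [h7] at h8 ⊢
      exact sum_half h8

/-- one of the two even -/
theorem CG_even {A m : ℕ} (hA : Ps A) (hm : Ng m) (hc : Nat.Coprime A m) (he : 2 ∣ A ∨ 2 ∣ m) :
    2 * CG A m (chP A) (chM m) =
      ∑ u ∈ (range (A * m)).filter (fun u => 2 * u < A * m), chE (A * m) u := by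
  obtain ⟨k, hP⟩ := shP hA
  obtain ⟨l, hM⟩ := shM hm
  have hA1 : 1 < A := by
    rcases hA with ⟨-, -, h⟩ | ⟨M, h, -, h2⟩
    · exact h
    · omega
  have hm1 : 1 < m := by
    have := hM.2.1
    rcases hM.2.2.2 with ⟨e, h4⟩ | ⟨e, -⟩ | e <;> omega
  have hf := chr_P hP
  have hg := chr_M hM
  have h1 := dedG hA1 hm1 hc hf hg (prod_char hP hM hc he) (neg_P hP) (neg_M hM) (chP_sum hA)
    (recip hP hM hc)
  have h3 : ∃ j : ℕ, 0 < j ∧ A * m = j + j ∧ ∀ u : ℤ, chE (A * m) (j + u) = -chE (A * m) u := by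
    rcases he with h4 | h4
    · rcases hp_P hP with h5 | ⟨j, h6, h7, h8⟩
      · rw [Nat.odd_iff] at h5
        omega
      · have hmo : m % 2 = 1 := by
          by_contra hm2
          have := Nat.dvd_gcd h4 (show 2 ∣ m by omega)
          rw [hc] at this
          omega
        refine ⟨j * m, Nat.mul_pos h6 (by omega), by rw [h7]; ring, fun u => ?_⟩
        rw [prod_char hP hM hc (Or.inl h4), prod_char hP hM hc (Or.inl h4)]
        have e1 : chP A (((j * m : ℕ) : ℤ) + u) = chP A (j + u) := by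
          obtain ⟨q, hq⟩ : ∃ q : ℕ, m = 2 * q + 1 := ⟨m / 2, by omega⟩
          refine hf.per _ _ ⟨(q : ℤ), ?_⟩
          rw [h7, hq]
          push_cast
          ring
        have e2 : chM m (((j * m : ℕ) : ℤ) + u) = chM m u := hg.per _ _ ⟨j, by push_cast; ring⟩
        rw [e1, e2, h8]
        ring
    · rcases hp_M hM with h5 | ⟨j, h6, h7, h8⟩
      · rw [Nat.odd_iff] at h5
        omega
      · have hAo : A % 2 = 1 := by
          by_contra hm2
          have := Nat.dvd_gcd (show 2 ∣ A by omega) h4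
          rw [hc] at this
          omega
        refine ⟨A * j, Nat.mul_pos (by omega) h6, by rw [h7]; ring, fun u => ?_⟩
        rw [prod_char hP hM hc (Or.inr h4), prod_char hP hM hc (Or.inr h4)]
        have e1 : chM m (((A * j : ℕ) : ℤ) + u) = chM m (j + u) := by
          obtain ⟨q, hq⟩ : ∃ q : ℕ, A = 2 * q + 1 := ⟨A / 2, by omega⟩
          refine hg.per _ _ ⟨(q : ℤ), ?_⟩
          rw [h7, hq]
          push_cast
          ring
        have e2 : chP A (((A * j : ℕ) : ℤ) + u) = chP A u := hf.per _ _ ⟨j, by push_cast; ring⟩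
        rw [e1, e2, h8]
        ring
  obtain ⟨j, hj0, hj, hh⟩ := h3
  rw [hj] at hh
  have h5 := TG_half hh
  rw [← hj] at h5
  rw [h1] at h5
  have hn0 : ((A * m : ℕ) : ℤ) ≠ 0 := by
    exact_mod_cast (by omega : A * m ≠ 0)
  apply mul_left_cancel₀ hn0
  linear_combination (-1 : ℤ) * h5

/-- the sum over the cusps -/
theorem bd_CG {A m : ℕ} (hA : Ps A) (hm : Ng m) (hc : Nat.Coprime A m) :
    ∑ u ∈ un m, chM m u * bdE A u m = 2 * CG A m (chP A) (chM m) := by
  obtain ⟨l, hM⟩ := shM hm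
  have hm1 : 1 < m := by
    have := hM.2.1
    rcases hM.2.2.2 with ⟨e, h4⟩ | ⟨e, -⟩ | e <;> omega
  exact lineA hm1 hc (chr_M hM) (chP_sum hA)

/-- odd products are squarefree -/
lemma prod_odd {A m : ℕ} (hA : Ps A) (hm : Ng m) (hc : Nat.Coprime A m) (hA2 : ¬ 2 ∣ A)
    (hm2 : ¬ 2 ∣ m) : Squarefree (A * m) ∧ (A * m) % 4 = 3 := by
  rcases hA with ⟨h1, h2, -⟩ | ⟨M, h, -, h2⟩
  · rcases hm with ⟨h3, h4⟩ | ⟨M, h, -, -⟩
    · exact ⟨(Nat.squarefree_mul hc).2 ⟨h1, h3⟩, by rw [Nat.mul_mod, h2, h4]⟩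
    · exact absurd ⟨2 * M, by omega⟩ hm2
  · exact absurd ⟨2 * M, by omega⟩ hA2

/-- even products -/
lemma prod_even {A m : ℕ} (hA : Ps A) (hm : Ng m) (hc : Nat.Coprime A m) (he : 2 ∣ A ∨ 2 ∣ m) :
    Ev (A * m) := by
  by_cases hA2 : 2 ∣ A
  · have hm2 : ¬ 2 ∣ m := by
      intro hm2
      have := Nat.dvd_gcd hA2 hm2
      rw [hc] at this
      omega
    rcases hA with ⟨h1, h2, -⟩ | ⟨M, rfl, h1, h2⟩
    · omega
    · rcases hm with ⟨h3, h4⟩ | ⟨M', h, -, -⟩
      · refine ⟨M * m, by ring, (Nat.squarefree_mul (hc.coprime_dvd_left ⟨4, by ring⟩)).2 ⟨h1, h3⟩, ?_⟩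
        rcases h2 with h2 | h2 <;> rw [Nat.mul_mod, h2, h4] <;> norm_num
      · exact absurd ⟨2 * M', by omega⟩ hm2
  · have hm2 : 2 ∣ m := he.resolve_left hA2
    rcases hA with ⟨h1, h2, -⟩ | ⟨M, h, -, -⟩
    · rcases hm with ⟨h3, h4⟩ | ⟨M', rfl, h3, h4⟩
      · omega
      · refine ⟨A * M', by ring, (Nat.squarefree_mul (hc.coprime_dvd_right ⟨4, by ring⟩)).2
          ⟨h1, h3⟩, ?_⟩
        rcases h4 with h4 | h4 <;> rw [Nat.mul_mod, h2, h4] <;> norm_num
    · exact absurd ⟨2 * M, by omega⟩ hA2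

/-- **CNF**: the class number formula for the boundary terms, `3 ∣ n` -/
theorem t_CNF : S_CNF := by
  intro A m hA hm hc h3A h15
  have h3 : 3 ∣ A * m := dvd_trans (by norm_num) h15
  rw [bd_CG hA hm hc]
  by_cases he : 2 ∣ A ∨ 2 ∣ m
  · rw [← cn_even3 (prod_even hA hm hc he) h3, ← CG_even hA hm hc he]
  · push Not at he
    have h1 := CG_odd hA hm hc he.1 he.2
    obtain ⟨h2, h4⟩ := prod_odd hA hm hc he.1 he.2
    have h5 := cn_odd3 h2 h4 h3
    have h6 : 2 - ep2 (A * m) ≠ 0 := by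
      unfold ep2
      split_ifs <;> norm_num
    apply mul_left_cancel₀ h6
    rw [← h5, ← h1]
    ring

/-- **CNF4**: the class number formula for the boundary terms, `3` inert -/
theorem t_CNF4 : S_CNF4 := by
  intro A m hA hm hc
  have h3 : (A * m) % 3 = 1 := by
    rw [Nat.mul_mod, hA.2.1, hm.2.1]
  rw [bd_CG hA.1 hm.1 hc]
  by_cases he : 2 ∣ A ∨ 2 ∣ m
  · rw [← cn_even (prod_even hA.1 hm.1 hc he) h3, ← CG_even hA.1 hm.1 hc he]
  · push Not at he
    have h1 := CG_odd hA.1 hm.1 hc he.1 he.2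
    obtain ⟨h2, h4⟩ := prod_odd hA.1 hm.1 hc he.1 he.2
    have h5 := cn_odd h2 h4 h3
    have h6 : 2 - ep2 (A * m) ≠ 0 := by
      unfold ep2
      split_ifs <;> norm_num
    apply mul_left_cancel₀ h6
    rw [← h5, ← h1]
    ring

end Pool.Agent.N971.P15G
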