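import Pool.Agent.N971.P15G.C1
import Pool.Agent.N973.P15G.Defs2

/-!
# P15G: C1A4
-/

set_option autoImplicit false

namespace Pool.Agent.N971.P15G

open Finset
open Pool.Agent.N969.P15 (un psp psp2 c2 Ev chE WW WWe Fp)
open Pool.Agent.N969.P17G (chP chM)
open Pool.Agent.N402.P15 (q2)
open Pool.Agent.N971.C1
open Pool.Agent.N973.P15G

noncomputable section

theorem md_self {n : ℕ} (hn : Ng n) : Md n n := by
  by_cases h2 : 2 ∣ n
  · right
    obtain ⟨M, rfl, hM, h4⟩ := Ng_even hn h2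
    rcases h4 with h4 | h4
    · refine ⟨M, by omega, hM, ?_⟩
      unfold q2
      rw [if_pos (by omega)]
    · obtain ⟨l, rfl⟩ : ∃ l, M = 2 * l := ⟨M / 2, by omega⟩
      refine ⟨l, by omega, hM.squarefree_of_dvd (Dvd.intro_left 2 rfl), ?_⟩
      unfold q2
      rw [if_neg (by omega)]
      ring
  · exact Or.inl ⟨h2, (Ng_odd hn h2).1⟩

theorem sq_not2 {n : ℕ} (hn : Ng n) {k : ℕ} (hk : k = 1 ∨ k = 2) :
    ∀ p ∈ n.primeFactors.erase 2, ¬ p ^ 2 ∣ k * n := by
  intro p hp h
  rw [Finset.mem_erase] at hp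
  have hpp := Nat.prime_of_mem_primeFactors hp.2
  have h1 : Nat.Coprime (p ^ 2) k := by
    rcases hk with rfl | rfl
    · exact Nat.coprime_one_right _
    · exact Nat.Coprime.pow_left 2 ((Nat.coprime_primes hpp Nat.prime_two).2 hp.1)
  have h2 := h1.dvd_of_dvd_mul_left h
  have := sq_not (A := 1) hn (Nat.coprime_one_left n) p (Finset.mem_erase.2 hp)
  rw [one_mul] at this
  exact this h2

theorem WX_W4 {n : ℕ} (hn : Ng n) {k : ℕ} (hk : k = 1 ∨ k = 2) :
    Pool.Agent.N973.P15.C.WX (fun u => chM n u) n (k * n) = W4 n (k * n) := by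
  unfold Pool.Agent.N973.P15.C.WX W4
  refine Finset.sum_congr rfl fun T hT => ?_
  have hTN := (Finset.mem_filter.1 hT).1
  rw [Finset.mem_range] at hTN
  have hchi : ∀ u : ℤ, chM n u = chi n n u := fun u => rfl
  have key : ∀ a ∈ (k * n - T).divisors.filter (3 ∣ ·), ∀ a' ∈ T.divisors.filter (5 ∣ ·),
      ∑ u ∈ (un n).filter (fun u : ℕ => (n : ℤ) ∣ (a : ℤ) * (u : ℤ) + ((T / a' : ℕ) : ℤ) ∧
        (n : ℤ) ∣ (a' : ℤ) * (u : ℤ) - (((k * n - T) / a : ℕ) : ℤ)), chM n u =
      Rk n n a a' ((k * n - T) / a) (T / a') := by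
    intro a ha a' ha'
    have ha := Nat.dvd_of_mem_divisors (Finset.mem_filter.1 ha).1
    have ha' := Nat.dvd_of_mem_divisors (Finset.mem_filter.1 ha').1
    have hdet : a * ((k * n - T) / a) + a' * (T / a') = k * n := by
      rw [Nat.mul_div_cancel' ha, Nat.mul_div_cancel' ha']
      omega
    rw [← sum_chi (md_self hn) (M := k * n) (Dvd.intro_left k rfl) (sq_not2 hn hk) a a' (T / a')
      ((k * n - T) / a) hdet]
    rfl
  rw [Finset.sum_congr rfl fun a ha => Finset.sum_congr rfl fun a' ha' => key a ha a' ha']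
  by_cases h2 : 2 ∣ n
  · rw [if_pos h2]
    have hm : 2 ∈ n.primeFactors := Nat.mem_primeFactors.2
      ⟨Nat.prime_two, h2, by have := Ng_pos hn; omega⟩
    unfold WWe Rk
    refine Finset.sum_congr rfl fun a _ => Finset.sum_congr rfl fun a' _ => ?_
    rw [← Finset.mul_prod_erase _ _ hm, if_pos rfl]
    congr 1
    refine Finset.prod_congr rfl fun p hp => ?_
    rw [Finset.mem_erase] at hp
    rw [if_neg hp.1]
  · rw [if_neg h2]
    unfold Pool.Agent.N969.P15.WW Rk
    refine Finset.sum_congr rfl fun a _ => Finset.sum_congr rfl fun a' _ => ?_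
    refine Finset.prod_congr rfl fun p hp => ?_
    rw [if_neg]
    rintro rfl
    exact h2 (Nat.dvd_of_mem_primeFactors hp)

/-- **C1A4** -/
theorem t_C1A4 : S_C1A4 := by
  intro n hn _
  have h := Pool.Agent.N973.P15.C.main (Ng_pos hn) (fun u => chM n u) (fun u => chM_refl hn u)
  rw [WX_W4 hn (Or.inr rfl)] at h
  have h1 := WX_W4 hn (Or.inl rfl)
  rw [one_mul] at h1
  rw [h1] at h
  exact h

end

end Pool.Agent.N971.P15G
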