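import Pool.Agent.N871.P15G.C2b
import Pool.Agent.N975.RQ.DuE

/-!
# C2MD, C2MS of project P15G: the dual divisor sums
-/

set_option autoImplicit false

namespace Pool.Agent.N971.P15G

open Finset
open Pool.Agent.N969.P15 (psp psp2)
open Pool.Agent.N969.P17G (psl psl2 sgnE)
open Pool.Agent.N969.RQ (Fd wd)
open Pool.Agent.N295.P15 (Ff)
open Pool.Agent.N295.P15.E (eT eS eT_sq eS_sq pf_prime pf_dvd kq)
open Pool.Agent.N833.P21 (L2)
open Pool.Agent.N871.G21 (FF FF_of DS hl Lc_S10 Lc_S01 Lc_I10 Lc_I01 Fn_mul Fn_two sdiff_m sdiff_A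
  p3 Fn_ne Wd_DS)
open Pool.Agent.N871.G15 (Pch Ps3_inert Ps5_split p5 lev_M lev_W Fs DS_val main_A main_m main_T
  W2_DS cls_n dl L2_symm Fs_symm Ff_symm Q'_symm Q' nv_or s_rel eS_eq Ps_Fd)
open Pool.Agent.N877.P21G (Fn Wd)
open Pool.Agent.N973.P15G

/-- the class of an auxiliary prime -/
theorem Nsi_of {l : ℕ} (hc : N969.P15.Cls0 l) : Nsi l ∧ l % 4 = 3 := by
  obtain ⟨h1, h2⟩ := hc
  refine ⟨⟨Or.inl ⟨h1, by omega⟩, by omega, by omega⟩, by omega⟩

theorem Fd_of {A : ℕ} (h : Ps A) : Fd A := by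
  rcases h with ⟨h1, h2, h3⟩ | ⟨M, h1, h2, h3⟩
  · exact ⟨h3, Or.inl ⟨h1, h2⟩⟩
  · exact ⟨by omega, Or.inr ⟨M, h1, h2, h3⟩⟩

/-- the dual divisor sum -/
theorem WD_eq {A l : ℕ} (hA : Fd A) (hl : l.Prime) (h4 : l % 4 = 3) (q r S T : ℕ) :
    N969.RQ.WD q r A l S T = Wd (q ∣ ·) (r ∣ ·) l A S T := by
  unfold N969.RQ.WD Wd
  refine Finset.sum_congr rfl fun a _ => Finset.sum_congr rfl fun a' _ => ?_
  unfold wd
  rw [hl.primeFactors, Finset.prod_singleton, if_neg (by omega : ¬ l = 2)]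
  congr 1
  by_cases h2 : 2 ∣ A
  · have hm : 2 ∈ A.primeFactors := Nat.mem_primeFactors.2 ⟨Nat.prime_two, h2,
      N975.RQ.Du.Fd_ne hA⟩
    rw [if_pos h2, ← Finset.mul_prod_erase _ _ hm, if_pos rfl, N975.RQ.Du.psp2_A h4 hA h2,
      mul_comm A l]
    congr 1
    exact Finset.prod_congr rfl fun p hp => (if_neg (Finset.ne_of_mem_erase hp)).symm
  · rw [if_neg h2, one_mul, Finset.erase_eq_of_notMem fun h => h2 (pf_dvd h)]
    refine Finset.prod_congr rfl fun p hp => (if_neg ?_).symm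
    rintro rfl
    exact h2 (pf_dvd hp)

theorem t_C2MD : S_C2MD := by
  intro A l hA hl hcl hd T hT0 hTn hT3 hS5
  obtain ⟨hN, h4⟩ := Nsi_of hcl
  have hcop : Nat.Coprime A l := ((Nat.Prime.coprime_iff_not_dvd hl).2 hd).symm
  obtain ⟨hA', hm', h3, h5⟩ := cls_n (Or.inl ⟨hA, hN⟩)
  obtain ⟨hF, _⟩ := Fn_mul hA' hm' hcop
  have hFF := FF_of hF
  have hA0 : A ≠ 0 := by rintro rfl; exact hFF.n0 (by rw [zero_mul])
  obtain ⟨n3, P3⟩ := Ps3_inert hFF h3
  obtain ⟨n5, P5⟩ := Ps5_split hFF h5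
  obtain ⟨S, hSdef⟩ : ∃ S, S = A * l - T := ⟨_, rfl⟩
  rw [← hSdef] at hS5 ⊢
  have hST : S + T = 1 * (A * l) := by omega
  have hS : S ≠ 0 := by omega
  have hT : T ≠ 0 := by omega
  have hT5 : ¬ 5 ∣ T := by
    intro h
    have h6 : 5 ∣ 1 * (A * l) := hST ▸ dvd_add hS5 h
    omega
  have hS3 : ¬ 3 ∣ S := by
    intro h
    have h6 : 3 ∣ 1 * (A * l) := hST ▸ dvd_add h hT3
    omega
  rw [W2_DS hA0 hl.ne_zero hcop, DS_val lev_M hFF (Or.inl rfl) hS hT hST
    (Lc_I01 n3 P3 (Or.inl hS3)) (Lc_S10 n5 P5 hT5), sdiff_m hA0 hl.ne_zero hcop,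
    WD_eq (Fd_of hA.1) hl h4, Wd_DS _ _ hl.ne_zero hA0 hcop.symm, mul_comm l A,
    DS_val lev_M hFF (Or.inl rfl) hS hT hST
    (Lc_I01 n3 P3 (Or.inl hS3)) (Lc_S10 n5 P5 hT5), sdiff_A hA0 hl.ne_zero hcop]
  by_cases ho : Odd (T.factorization 3)
  · rw [if_pos ho]
    have m1 := main_A hA' hm' hcop (Or.inl rfl) hS hT hST (fun h => absurd h (by
      have := hA.2.1; omega)) (fun h => absurd h (by have := hA.2.2; omega))
    have m2 := main_m hA' hm' hcop (Or.inl rfl) hS hT hST (fun h => absurd h (by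
      have := hA.2.1; omega)) (fun h => absurd h (by have := hA.2.2; omega))
    have d1 : dl (A * l) T = -1 := by
      unfold dl
      rw [if_neg n3, if_neg n5]
      have P3' : Pool.Agent.N295.P15.E.Ps (A * l) 3 = -1 := P3
      have P5' : Pool.Agent.N295.P15.E.Ps (A * l) 5 = 1 := P5
      rw [P3', P5', one_pow, mul_one, ho.neg_one_pow]
    rw [d1] at m2
    unfold Fs at m1 m2
    linear_combination (-(S.factorization 5 : ℤ)) * m1 + (S.factorization 5 : ℤ) * m2
  · rw [if_neg ho]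
    ring

theorem Ps3_split {n : ℕ} (h : FF n) (h0 : n % 3 = 2) :
    3 ∉ n.primeFactors ∧ Pool.Agent.N295.P15.E.Ps n 3 = 1 := by
  have h3 : 3 ∉ n.primeFactors := fun h1 => by
    have := pf_dvd h1
    omega
  refine ⟨h3, ?_⟩
  rw [h.Ps_l 3 p3 (by norm_num) h3, jacobiSym.mod_left]
  have h1 : (-(n : ℤ)) % ((3 : ℕ) : ℤ) = 1 := by omega
  rw [h1]; norm_num

theorem Ps5_inert {n : ℕ} (h : FF n) (h0 : n % 5 = 2 ∨ n % 5 = 3) :
    5 ∉ n.primeFactors ∧ Pool.Agent.N295.P15.E.Ps n 5 = -1 := by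
  have h5 : 5 ∉ n.primeFactors := fun h1 => by
    have := pf_dvd h1
    rcases h0 with h0 | h0 <;> omega
  refine ⟨h5, ?_⟩
  rw [h.Ps_l 5 p5 (by norm_num) h5, jacobiSym.mod_left]
  rcases h0 with h0 | h0
  · have h1 : (-(n : ℤ)) % ((5 : ℕ) : ℤ) = 3 := by omega
    rw [h1]; norm_num
  · have h1 : (-(n : ℤ)) % ((5 : ℕ) : ℤ) = 2 := by omega
    rw [h1]; norm_num

theorem t_C2MS : S_C2MS := by
  intro A l hA hl hcl hd T hT0 hTn hT3 hS5
  obtain ⟨hN, h4⟩ := Nsi_of hcl
  have hcop : Nat.Coprime A l := ((Nat.Prime.coprime_iff_not_dvd hl).2 hd).symm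
  have hA' := Ps_Fd hA.1
  have hm' : Fn l := hN.1
  obtain ⟨hF, hk⟩ := Fn_mul hA' hm' hcop
  have hFF := FF_of hF
  have hA0 : A ≠ 0 := by rintro rfl; exact hFF.n0 (by rw [zero_mul])
  have h3 : A * l % 3 = 2 := by rw [Nat.mul_mod, hA.2.1, hN.2.1]
  have h5 : A * l % 5 = 2 ∨ A * l % 5 = 3 := by
    obtain ⟨-, -, h6⟩ := hA
    obtain ⟨-, -, h7⟩ := hN
    rcases h6 with h6 | h6 <;> rcases h7 with h7 | h7 <;> simp [Nat.mul_mod, h6, h7]
  obtain ⟨n3, P3⟩ := Ps3_split hFF h3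
  obtain ⟨n5, P5⟩ := Ps5_inert hFF h5
  obtain ⟨S, hSdef⟩ : ∃ S, S = A * l - T := ⟨_, rfl⟩
  rw [← hSdef] at hS5 ⊢
  have hST : S + T = 1 * (A * l) := by omega
  have hTS : T + S = 1 * (A * l) := by omega
  have hS : S ≠ 0 := by omega
  have hT : T ≠ 0 := by omega
  have hT5 : ¬ 5 ∣ T := by
    intro h
    have h6 : 5 ∣ 1 * (A * l) := hST ▸ dvd_add hS5 h
    omega
  have hS3 : ¬ 3 ∣ S := by
    intro h
    have h6 : 3 ∣ 1 * (A * l) := hST ▸ dvd_add h hT3
    omega
  rw [W2_DS hA0 hl.ne_zero hcop, DS_val lev_M hFF (Or.inl rfl) hS hT hST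
    (Lc_S01 n3 P3 hS3) (Lc_I10 n5 P5 hT5), sdiff_m hA0 hl.ne_zero hcop,
    WD_eq (Fd_of hA.1) hl h4, Wd_DS _ _ hl.ne_zero hA0 hcop.symm, mul_comm l A,
    DS_val lev_W hFF (Or.inl rfl) hT hS hTS
    (Lc_S10 n3 P3 hS3) (Lc_I01 n5 P5 (Or.inl hT5)), sdiff_A hA0 hl.ne_zero hcop, L2_symm hST]
  have hFs : ∏ l_1 ∈ Q' (A * l) T S, Ff (A * l) T S l_1 = Fs (A * l) S T := Fs_symm (A * l) S T
  rw [hFs]
  by_cases ho : Odd (S.factorization 5)
  · rw [if_pos ho]
    -- the signs at `S` and at `T` agree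
    have key : (∏ p ∈ A.primeFactors, eT (A * l) S p) * (L2 (A * l) S T * Fs (A * l) S T) =
        -(∏ p ∈ l.primeFactors, eT (A * l) T p) * (L2 (A * l) S T * Fs (A * l) S T) := by
      rcases nv_or (A * l) S T with ⟨hF', hL⟩ | ⟨h1, _⟩
      · congr 1
        have mT := Pool.Agent.N871.G15.prod_eT hFF (Or.inl rfl) hS hT hST hL hF'
        have hsr := s_rel hFF (Or.inl rfl) hS hT hST hL hF'
        have d1 : dl (A * l) T = 1 := by
          unfold dl
          rw [if_neg n3, if_neg n5, P3, P5, one_pow, Nat.factorization_eq_zero_of_not_dvd hT5,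
            pow_zero, mul_one]
        have d2 : dl (A * l) S = -1 := by
          unfold dl
          rw [if_neg n3, if_neg n5, P3, P5, one_pow, ho.neg_one_pow, one_mul]
        have d3 : Pool.Agent.N871.G21.hl (A * l) S T 3 = 1 := if_neg n3
        have d5 : Pool.Agent.N871.G21.hl (A * l) S T 5 = 1 := if_neg n5
        rw [d1, d2, d3, d5] at hsr
        rw [d1, Nat.primeFactors_mul hA0 hl.ne_zero,
          Finset.prod_union hcop.disjoint_primeFactors] at mT
        have e1 : ∏ p ∈ A.primeFactors, eT (A * l) S p = ∏ p ∈ A.primeFactors, eT (A * l) T p := by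
          have e2 : ∀ p ∈ A.primeFactors, eT (A * l) S p = kq (A * l) p * eT (A * l) T p := by
            intro p hp
            have hpn : p ∈ (A * l).primeFactors := by
              rw [Nat.primeFactors_mul hA0 hl.ne_zero]
              exact Finset.mem_union_left _ hp
            have e0 : eT (A * l) S p = kq (A * l) p * eS (A * l) S p := by
              unfold eT eS
              ring
            rw [e0]
            congr 1
            by_cases h2 : p = 2
            · subst h2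
              have e6 : Pool.Agent.N871.G21.hl (A * l) S T 2 = eS (A * l) S 2 * eT (A * l) T 2 := if_pos hpn
              have e7 := eT_sq (n := A * l) Nat.prime_two hT
              rw [e6] at hsr
              linear_combination (eT (A * l) T 2) * hsr - (eS (A * l) S 2) * e7
            · refine eS_eq hFF hS hT hST hF' (Finset.mem_erase.2 ⟨h2, hpn⟩) ?_ ?_
              · rintro rfl
                exact n3 hpn
              · rintro rfl
                exact n5 hpn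
          rw [Finset.prod_congr rfl e2, Finset.prod_mul_distrib, hk, one_mul]
        rw [e1]
        have e3 : (∏ p ∈ l.primeFactors, eT (A * l) T p) * ∏ p ∈ l.primeFactors, eT (A * l) T p =
            1 := by
          rw [← Finset.prod_mul_distrib]
          exact Finset.prod_eq_one fun p hp => eT_sq (pf_prime hp) hT
        linear_combination (∏ p ∈ l.primeFactors, eT (A * l) T p) * mT -
          (∏ p ∈ A.primeFactors, eT (A * l) T p) * e3
      · rw [h1, mul_zero, mul_zero]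
    unfold Fs at key ⊢
    linear_combination (-(T.factorization 3 : ℤ)) * key
  · rw [if_neg ho]
    ring

end Pool.Agent.N971.P15G
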